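import Pool.Agent.N356.SP.Defs4
import Pool.Agent.N645.LS.L7a
import Pool.Agent.N342.LS.JSpec

/-!
# KS10: second and third mixed moments (helper849, for helper356)
-/

set_option autoImplicit false

namespace Pool.Agent.N849.LS

open Finset Pool.Agent.H384R3.SPk Pool.Agent.N356.SP
open Pool.Agent.N645.LS (cosp_cont cl_cont cl_conj cosp_eq)
open Pool.Agent.N342.LS (J_spec)

theorem int_sum {ι : Type*} (s : Finset ι) (F : ι → ℝ → ℂ) (hF : ∀ i ∈ s, Continuous (F i)) :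
    ∫ x in (0:ℝ)..1, ∑ i ∈ s, F i x = ∑ i ∈ s, ∫ x in (0:ℝ)..1, F i x :=
  intervalIntegral.integral_finsetSum fun i hi => (hF i hi).intervalIntegrable _ _

theorem AJ_ofReal (i j : ℕ) (g f : ℤ →₀ ℝ) :
    (AJ i j g f : ℂ) = ∫ x in (0:ℝ)..1, (cosp g x : ℂ) ^ i * (cosp f x : ℂ) ^ j := by
  unfold AJ
  rw [← intervalIntegral.integral_ofReal]
  congr 1
  funext x
  push_cast
  rfl

theorem gp_cont (g : ℤ →₀ ℝ) (i : ℕ) : Continuous fun x : ℝ => (cosp g x : ℂ) ^ i :=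
  (Complex.continuous_ofReal.comp (cosp_cont g)).pow i

/-- KS10, first part -/
theorem AJ2_eq {m : ℕ} {C : Finset (ZMod m)} {g f : ℤ →₀ ℝ} (hneg : ∀ s ∈ C, -s ∈ C)
    (hg0 : ∀ n, 0 ≤ g n) (hf0 : ∀ n, 0 ≤ f n)
    (hg : ∀ n ∈ g.support, ((n : ℤ) : ZMod m) = 0)
    (hf : ∀ n ∈ f.support, ((n : ℤ) : ZMod m) ∈ C) (i : ℕ) :
    AJ i 2 g f = ∫ x in (0:ℝ)..1, cosp g x ^ i * muf C f x := by
  classical
  have hG := gp_cont g i
  have hcl := cl_cont m f
  have h0 : ∀ a b : ZMod m, a + b ≠ 0 →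
      ∫ x in (0:ℝ)..1, (cosp g x : ℂ) ^ i * (cl m f a x * cl m f b x) = 0 := by
    intro a b hab
    obtain ⟨r, -, h2, h3⟩ := J_spec m g f hg0 hf0 hg i {a, b}
    have h4 : ({a, b} : Multiset (ZMod m)).sum = a + b := by simp
    rw [h2 (by rw [h4]; exact hab), Complex.ofReal_zero] at h3
    rw [← h3]
    congr 1
    funext x
    simp
  apply Complex.ofReal_injective
  rw [AJ_ofReal, ← intervalIntegral.integral_ofReal]
  have e1 : ∀ x : ℝ, (cosp g x : ℂ) ^ i * (cosp f x : ℂ) ^ 2 =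
      ∑ a ∈ C, ∑ b ∈ C, (cosp g x : ℂ) ^ i * (cl m f a x * cl m f b x) := by
    intro x
    rw [cosp_eq m f C hneg hf x, pow_two, Finset.sum_mul_sum, Finset.mul_sum]
    refine Finset.sum_congr rfl fun a _ => ?_
    rw [Finset.mul_sum]
  have e2 : ∀ x : ℝ, ((cosp g x ^ i * muf C f x : ℝ) : ℂ) =
      ∑ a ∈ C, (cosp g x : ℂ) ^ i * (cl m f a x * cl m f (-a) x) := by
    intro x
    unfold muf
    rw [Finset.mul_sum, Complex.ofReal_sum]
    refine Finset.sum_congr rfl fun a _ => ?_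
    rw [← cl_conj, Complex.mul_conj']
    push_cast
    rfl
  simp_rw [e1, e2]
  have hc2 : ∀ a b, Continuous fun x : ℝ => (cosp g x : ℂ) ^ i * (cl m f a x * cl m f b x) :=
    fun a b => hG.mul ((hcl a).mul (hcl b))
  rw [int_sum _ _ fun a _ => continuous_finsetSum _ fun b _ => hc2 a b,
    int_sum _ _ fun a _ => hc2 a (-a)]
  refine Finset.sum_congr rfl fun a ha => ?_
  rw [int_sum _ _ fun b _ => hc2 a b]
  refine Finset.sum_eq_single_of_mem (-a) (hneg a ha) fun b _ hb => h0 a b fun h => hb ?_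
  exact (neg_eq_of_add_eq_zero_right h).symm

open Classical in
theorem mem_DD {Γ : Type*} [AddCommGroup Γ] {C : Finset Γ} {s t : Γ} (hs : s ∈ C) (ht : t ∈ C) :
    s + t ∈ DD C := by
  unfold DD
  rw [Finset.mem_image]
  exact ⟨(s, t), Finset.mem_product.mpr ⟨hs, ht⟩, rfl⟩

/-- cyclic symmetry of a triple sum -/
theorem cyc {ι : Type*} (C : Finset ι) (F : ι → ι → ι → ℂ) :
    ∑ r ∈ C, ∑ s ∈ C, ∑ t ∈ C, F s t r = ∑ r ∈ C, ∑ s ∈ C, ∑ t ∈ C, F r s t := by
  rw [Finset.sum_comm]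
  refine Finset.sum_congr rfl fun s _ => ?_
  rw [Finset.sum_comm]

/-- symmetrisation of the weights -/
theorem weights {Γ : Type*} [AddCommGroup Γ] {C : Finset Γ} {θ : Γ → Γ → ℝ} (h : GoodC C θ)
    (X : Γ → Γ → Γ → ℂ) (hX : ∀ r s t, X s t r = X r s t)
    (hX0 : ∀ r s t, r + s + t ≠ 0 → X r s t = 0) :
    ∑ r ∈ C, ∑ s ∈ C, ∑ t ∈ C, (θ s t : ℂ) * X r s t = ∑ r ∈ C, ∑ s ∈ C, ∑ t ∈ C, X r s t := by
  set S1 := ∑ r ∈ C, ∑ s ∈ C, ∑ t ∈ C, (θ s t : ℂ) * X r s t with hS1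
  have c1 := cyc C fun r s t => (θ s t : ℂ) * X r s t
  have c2 := cyc C fun r s t => (θ t r : ℂ) * X s t r
  beta_reduce at c1 c2
  have h1 : ∑ r ∈ C, ∑ s ∈ C, ∑ t ∈ C, (θ t r : ℂ) * X s t r = S1 := c1
  have h2 : ∑ r ∈ C, ∑ s ∈ C, ∑ t ∈ C, (θ r s : ℂ) * X t r s = S1 := c2.trans c1
  have h3 : ∑ r ∈ C, ∑ s ∈ C, ∑ t ∈ C, ((θ s t : ℂ) * X r s t + (θ t r : ℂ) * X s t r +
      (θ r s : ℂ) * X t r s) = 3 * ∑ r ∈ C, ∑ s ∈ C, ∑ t ∈ C, X r s t := by
    rw [Finset.mul_sum]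
    refine Finset.sum_congr rfl fun r hr => ?_
    rw [Finset.mul_sum]
    refine Finset.sum_congr rfl fun s hs => ?_
    rw [Finset.mul_sum]
    refine Finset.sum_congr rfl fun t ht => ?_
    rw [hX r s t, show X t r s = X r s t by rw [← hX t r s]]
    by_cases h0 : r + s + t = 0
    · have h4 := h.tri r hr s hs t ht h0
      have h5 : (θ r s : ℂ) + (θ s t : ℂ) + (θ t r : ℂ) = 3 := by exact_mod_cast h4
      rw [← h5]
      ring
    · rw [hX0 r s t h0]
      ring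
  simp only [Finset.sum_add_distrib] at h3
  rw [h1, h2, ← hS1] at h3
  have h6 : (3 : ℂ) ≠ 0 := by norm_num
  apply mul_left_cancel₀ h6
  rw [← h3]
  ring

theorem Vf_cont {m : ℕ} (C : Finset (ZMod m)) (θ : ZMod m → ZMod m → ℝ) (f : ℤ →₀ ℝ)
    (r : ZMod m) : Continuous (Vf C θ f r) := by
  unfold Vf
  refine continuous_finsetSum _ fun s _ => continuous_finsetSum _ fun t _ => ?_
  split_ifs
  · exact continuous_const.mul ((cl_cont m f s).mul (cl_cont m f t))
  · exact continuous_const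

/-- KS10, second part -/
theorem AJ3_eq {m : ℕ} {C : Finset (ZMod m)} {θ : ZMod m → ZMod m → ℝ} {f : ℤ →₀ ℝ}
    (h : GoodC C θ) (hf0 : ∀ n, 0 ≤ f n)
    (hf : ∀ n ∈ f.support, ((n : ℤ) : ZMod m) ∈ C) :
    ∃ T : ℝ → ℝ, Continuous T ∧ (∀ x, T x ^ 2 ≤ muf C f x * wf C θ f x) ∧
      ∀ (g : ℤ →₀ ℝ), (∀ n, 0 ≤ g n) → (∀ n ∈ g.support, ((n : ℤ) : ZMod m) = 0) →
        ∀ i : ℕ, AJ i 3 g f = ∫ x in (0:ℝ)..1, cosp g x ^ i * T x := by
  classical
  have hcl := cl_cont m f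
  have hTc : Continuous fun x => ∑ r ∈ C, cl m f r x * Vf C θ f (-r) x :=
    continuous_finsetSum _ fun r _ => (hcl r).mul (Vf_cont C θ f (-r))
  refine ⟨fun x => (∑ r ∈ C, cl m f r x * Vf C θ f (-r) x).re,
    Complex.continuous_re.comp hTc, fun x => ?_, ?_⟩
  · -- Cauchy-Schwarz
    have h1 : |(∑ r ∈ C, cl m f r x * Vf C θ f (-r) x).re| ≤
        ∑ r ∈ C, ‖cl m f r x‖ * ‖Vf C θ f (-r) x‖ := by
      refine (Complex.abs_re_le_norm _).trans ((norm_sum_le _ _).trans (le_of_eq ?_))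
      exact Finset.sum_congr rfl fun r _ => norm_mul _ _
    have h2 : (∑ r ∈ C, ‖cl m f r x‖ * ‖Vf C θ f (-r) x‖) ^ 2 ≤
        (∑ r ∈ C, ‖cl m f r x‖ ^ 2) * ∑ r ∈ C, ‖Vf C θ f (-r) x‖ ^ 2 :=
      Finset.sum_mul_sq_le_sq_mul_sq _ _ _
    have h3 : ∑ r ∈ C, ‖Vf C θ f (-r) x‖ ^ 2 ≤ wf C θ f x := by
      unfold wf
      have h4 : ∀ r ∈ C, -r ∉ DD C → ‖Vf C θ f (-r) x‖ ^ 2 = 0 := by
        intro r _ hr
        have h5 : Vf C θ f (-r) x = 0 := by
          unfold Vf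
          refine Finset.sum_eq_zero fun s hs => Finset.sum_eq_zero fun t ht => ?_
          rw [if_neg]
          intro hst
          apply hr
          rw [← hst]
          exact mem_DD hs ht
        rw [h5, norm_zero, zero_pow two_ne_zero]
      have h6 : ∑ r ∈ C, ‖Vf C θ f (-r) x‖ ^ 2 =
          ∑ r ∈ C.filter (fun r => -r ∈ DD C), ‖Vf C θ f (-r) x‖ ^ 2 := by
        rw [Finset.sum_filter]
        refine Finset.sum_congr rfl fun r hr => ?_
        split_ifs with h7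
        · rfl
        · exact h4 r hr h7
      rw [h6]
      have h7 : ∑ q ∈ (C.filter (fun r => -r ∈ DD C)).image (fun r => -r), ‖Vf C θ f q x‖ ^ 2 =
          ∑ r ∈ C.filter (fun r => -r ∈ DD C), ‖Vf C θ f (-r) x‖ ^ 2 :=
        Finset.sum_image fun a _ b _ hab => neg_injective hab
      rw [← h7]
      refine Finset.sum_le_sum_of_subset_of_nonneg ?_ fun _ _ _ => sq_nonneg _
      intro q hq
      rw [Finset.mem_image] at hq
      obtain ⟨r, hr, rfl⟩ := hq
      exact (Finset.mem_filter.mp hr).2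
    have h8 : 0 ≤ ∑ r ∈ C, ‖cl m f r x‖ ^ 2 := Finset.sum_nonneg fun _ _ => sq_nonneg _
    calc (∑ r ∈ C, cl m f r x * Vf C θ f (-r) x).re ^ 2
        = |(∑ r ∈ C, cl m f r x * Vf C θ f (-r) x).re| ^ 2 := (sq_abs _).symm
      _ ≤ (∑ r ∈ C, ‖cl m f r x‖ * ‖Vf C θ f (-r) x‖) ^ 2 :=
          pow_le_pow_left₀ (abs_nonneg _) h1 2
      _ ≤ (∑ r ∈ C, ‖cl m f r x‖ ^ 2) * ∑ r ∈ C, ‖Vf C θ f (-r) x‖ ^ 2 := h2
      _ ≤ (∑ r ∈ C, ‖cl m f r x‖ ^ 2) * wf C θ f x := mul_le_mul_of_nonneg_left h3 h8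
      _ = muf C f x * wf C θ f x := rfl
  · intro g hg0 hg i
    have hG := gp_cont g i
    set X : ZMod m → ZMod m → ZMod m → ℂ := fun r s t =>
      ∫ x in (0:ℝ)..1, (cosp g x : ℂ) ^ i * (cl m f r x * (cl m f s x * cl m f t x)) with hX
    have hXc : ∀ r s t, Continuous fun x : ℝ =>
        (cosp g x : ℂ) ^ i * (cl m f r x * (cl m f s x * cl m f t x)) := fun r s t =>
      hG.mul ((hcl r).mul ((hcl s).mul (hcl t)))
    have hX1 : ∀ r s t, X s t r = X r s t := by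
      intro r s t
      simp only [hX]
      congr 1
      funext x
      ring
    have hX0 : ∀ r s t, r + s + t ≠ 0 → X r s t = 0 := by
      intro r s t hrst
      obtain ⟨y, -, h2, h3⟩ := J_spec m g f hg0 hf0 hg i {r, s, t}
      have h4 : ({r, s, t} : Multiset (ZMod m)).sum = r + s + t := by simp [add_assoc]
      rw [h2 (by rw [h4]; exact hrst), Complex.ofReal_zero] at h3
      rw [← h3]
      simp only [hX]
      congr 1
      funext x
      simp
    have e1 : (AJ i 3 g f : ℂ) = ∑ r ∈ C, ∑ s ∈ C, ∑ t ∈ C, X r s t := by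
      rw [AJ_ofReal]
      have e : ∀ x : ℝ, (cosp g x : ℂ) ^ i * (cosp f x : ℂ) ^ 3 =
          ∑ r ∈ C, ∑ s ∈ C, ∑ t ∈ C,
            (cosp g x : ℂ) ^ i * (cl m f r x * (cl m f s x * cl m f t x)) := by
        intro x
        rw [cosp_eq m f C h.neg hf x, pow_succ', pow_two, Finset.sum_mul_sum, Finset.sum_mul_sum,
          Finset.mul_sum]
        refine Finset.sum_congr rfl fun r _ => ?_
        rw [Finset.mul_sum]
        refine Finset.sum_congr rfl fun s _ => ?_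
        rw [Finset.mul_sum, Finset.mul_sum]
      simp_rw [e]
      rw [int_sum _ _ fun r _ => continuous_finsetSum _ fun s _ =>
        continuous_finsetSum _ fun t _ => hXc r s t]
      refine Finset.sum_congr rfl fun r _ => ?_
      rw [int_sum _ _ fun s _ => continuous_finsetSum _ fun t _ => hXc r s t]
      refine Finset.sum_congr rfl fun s _ => ?_
      rw [int_sum _ _ fun t _ => hXc r s t]
    have e2 : ∫ x in (0:ℝ)..1, (cosp g x : ℂ) ^ i * ∑ r ∈ C, cl m f r x * Vf C θ f (-r) x =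
        ∑ r ∈ C, ∑ s ∈ C, ∑ t ∈ C, (θ s t : ℂ) * X r s t := by
      have e : ∀ x : ℝ, (cosp g x : ℂ) ^ i * ∑ r ∈ C, cl m f r x * Vf C θ f (-r) x =
          ∑ r ∈ C, ∑ s ∈ C, ∑ t ∈ C, (if s + t = -r then (θ s t : ℂ) else 0) *
            ((cosp g x : ℂ) ^ i * (cl m f r x * (cl m f s x * cl m f t x))) := by
        intro x
        rw [Finset.mul_sum]
        refine Finset.sum_congr rfl fun r _ => ?_
        unfold Vf
        rw [Finset.mul_sum, Finset.mul_sum]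
        refine Finset.sum_congr rfl fun s _ => ?_
        rw [Finset.mul_sum, Finset.mul_sum]
        refine Finset.sum_congr rfl fun t _ => ?_
        split_ifs <;> ring
      simp_rw [e]
      have hc3 : ∀ r s t, Continuous fun x : ℝ => (if s + t = -r then (θ s t : ℂ) else 0) *
          ((cosp g x : ℂ) ^ i * (cl m f r x * (cl m f s x * cl m f t x))) := fun r s t =>
        continuous_const.mul (hXc r s t)
      rw [int_sum _ _ fun r _ => continuous_finsetSum _ fun s _ =>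
        continuous_finsetSum _ fun t _ => hc3 r s t]
      refine Finset.sum_congr rfl fun r _ => ?_
      rw [int_sum _ _ fun s _ => continuous_finsetSum _ fun t _ => hc3 r s t]
      refine Finset.sum_congr rfl fun s _ => ?_
      rw [int_sum _ _ fun t _ => hc3 r s t]
      refine Finset.sum_congr rfl fun t _ => ?_
      rw [intervalIntegral.integral_const_mul]
      by_cases hst : s + t = -r
      · rw [if_pos hst]
      · rw [if_neg hst, hX0 r s t fun h0 => hst ?_, mul_zero, zero_mul]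
        rw [eq_neg_iff_add_eq_zero, add_comm, ← add_assoc]
        exact h0
    have e3 : (AJ i 3 g f : ℂ) =
        ∫ x in (0:ℝ)..1, (cosp g x : ℂ) ^ i * ∑ r ∈ C, cl m f r x * Vf C θ f (-r) x := by
      rw [e1, e2, weights h X hX1 hX0]
    have e4 := congrArg Complex.re e3
    rw [Complex.ofReal_re] at e4
    rw [e4]
    have hint : IntervalIntegrable (fun x : ℝ => (cosp g x : ℂ) ^ i *
        ∑ r ∈ C, cl m f r x * Vf C θ f (-r) x) MeasureTheory.volume 0 1 :=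
      (hG.mul hTc).intervalIntegrable _ _
    have e5 := intervalIntegral.intervalIntegral_re hint
    simp only [RCLike.re_eq_complex_re] at e5
    rw [← e5]
    congr 1
    funext x
    have e6 : (cosp g x : ℂ) ^ i = ((cosp g x ^ i : ℝ) : ℂ) := by push_cast; rfl
    rw [e6]
    exact Complex.re_ofReal_mul _ _

end Pool.Agent.N849.LS
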